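import Pool.Agent.H23.FC.Targets
import Pool.Agent.H21.FM.KR1

/-!
# Row KR1 of the board `fmx_modules`: bounds for one half of the kernel of weight `2 m`
-/

set_option autoImplicit false

open MeasureTheory Set Filter
open scoped Real Topology

namespace Pool.Agent.H11.FC

open Pool.Agent.H31.CN Pool.Agent.H89.FM Pool.Agent.H89.FC Pool.Agent.H23.FC

/-- the integrand after the substitution -/
noncomputable def hh (m : ℕ) (τ s : ℂ) (w : ℝ) : ℂ := phm m (τ * w) * (τ * w) ^ s / w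

theorem rpow_le_one_add (a w : ℝ) (ha : 0 ≤ a) (ha1 : a ≤ 1) (hw : 0 < w) : w ^ a ≤ 1 + w := by
  rcases le_total w 1 with h | h
  · have h3 := Real.rpow_le_one hw.le h ha
    linarith
  · have h3 := Real.rpow_le_rpow_of_exponent_le h ha1
    rw [Real.rpow_one] at h3
    linarith

/-- the hypothesis on the test function along the ray -/
def Ray (m : ℕ) (τ : ℂ) (B T : ℝ) : Prop :=
  ∀ w : ℝ, 0 < w → ‖phm m (τ * w)‖ * (1 + w) ≤ B * w * Real.exp (-(2 * w / T))

theorem hh_bound (m : ℕ) (τ s : ℂ) (B T w : ℝ) (hτ0 : τ ≠ 0) (hB : Ray m τ B T)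
    (hs : |s.re - 1 / 2| ≤ 1 / 8) (hw : 0 < w) :
    ‖hh m τ s w‖ ≤ B * ‖τ ^ s‖ * Real.exp (-(2 / T) * w) := by
  obtain ⟨hs1, hs2⟩ := abs_le.1 hs
  unfold hh
  rw [norm_div, norm_mul, Pool.Agent.H21.FM.cpow_real_mul τ s w hτ0 hw, norm_mul,
    Complex.norm_cpow_eq_rpow_re_of_pos hw, Complex.norm_real, Real.norm_of_nonneg hw.le]
  have h1 := hB w hw
  have h2 := rpow_le_one_add s.re w (by linarith) (by linarith) hw
  have e2 : Real.exp (-(2 * w / T)) = Real.exp (-(2 / T) * w) := by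
    congr 1
    ring
  rw [e2] at h1
  rw [div_le_iff₀ hw]
  calc ‖phm m (τ * w)‖ * (‖τ ^ s‖ * w ^ s.re)
      = ‖τ ^ s‖ * (‖phm m (τ * w)‖ * w ^ s.re) := by ring
    _ ≤ ‖τ ^ s‖ * (‖phm m (τ * w)‖ * (1 + w)) :=
        mul_le_mul_of_nonneg_left (mul_le_mul_of_nonneg_left h2 (norm_nonneg _)) (norm_nonneg _)
    _ ≤ ‖τ ^ s‖ * (B * w * Real.exp (-(2 / T) * w)) :=
        mul_le_mul_of_nonneg_left h1 (norm_nonneg _)
    _ = B * ‖τ ^ s‖ * Real.exp (-(2 / T) * w) * w := by ring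

theorem hh_cont (m : ℕ) (τ s : ℂ) (hτ : 0 < τ.re) : ContinuousOn (hh m τ s) (Ioi 0) := by
  have h1 : Continuous fun w : ℝ => τ * (w : ℂ) := continuous_const.mul Complex.continuous_ofReal
  have h2 : Continuous (phm m) := by
    unfold phm
    fun_prop
  intro w hw
  have hw0 : (0 : ℝ) < w := hw
  have hsl : τ * (w : ℂ) ∈ Complex.slitPlane := by
    left
    simp only [Complex.mul_re, Complex.ofReal_re, Complex.ofReal_im, mul_zero, sub_zero]
    positivity
  refine ContinuousAt.continuousWithinAt ?_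
  unfold hh
  refine ContinuousAt.div ?_ Complex.continuous_ofReal.continuousAt
    (by exact_mod_cast hw0.ne')
  exact ((h2.comp h1).continuousAt).mul (ContinuousAt.cpow h1.continuousAt continuousAt_const hsl)

theorem hh_int (m : ℕ) (τ s : ℂ) (B T : ℝ) (hτr : 0 < τ.re) (hT : 1 ≤ T) (hB : Ray m τ B T)
    (hs : |s.re - 1 / 2| ≤ 1 / 8) (r : ℝ) (hr : 0 < r) : IntegrableOn (hh m τ s) (Ioi r) := by
  have hT0 : 0 < T := by linarith
  have hτ0 : τ ≠ 0 := by
    rintro rfl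
    simp at hτr
  have h1 : IntegrableOn (fun w => B * ‖τ ^ s‖ * Real.exp (-(2 / T) * w)) (Ioi r) :=
    (exp_neg_integrableOn_Ioi r (b := 2 / T) (by positivity)).const_mul _
  refine Integrable.mono' h1 ?_ ?_
  · exact ((hh_cont m τ s hτr).mono (fun w hw => lt_trans hr hw)).aestronglyMeasurable
      measurableSet_Ioi
  · exact (ae_restrict_iff' measurableSet_Ioi).2 (ae_of_all _ fun w hw =>
      hh_bound m τ s B T w hτ0 hB hs (lt_trans hr hw))

theorem hh_norm_int (m : ℕ) (τ s : ℂ) (B T : ℝ) (hτ0 : τ ≠ 0) (hT : 1 ≤ T) (hB0 : 0 ≤ B)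
    (hB : Ray m τ B T) (hs : |s.re - 1 / 2| ≤ 1 / 8) (r : ℝ) (hr : 0 < r) :
    ‖∫ w in Ioi r, hh m τ s w‖ ≤ B * T * ‖τ ^ s‖ * Real.exp (-(r / T)) := by
  have hT0 : 0 < T := by linarith
  have h1 : IntegrableOn (fun w => B * ‖τ ^ s‖ * Real.exp (-(2 / T) * w)) (Ioi r) :=
    (exp_neg_integrableOn_Ioi r (b := 2 / T) (by positivity)).const_mul _
  refine (norm_integral_le_of_norm_le h1 ((ae_restrict_iff' measurableSet_Ioi).2
    (ae_of_all _ fun w hw => hh_bound m τ s B T w hτ0 hB hs (lt_trans hr hw)))).trans ?_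
  rw [integral_const_mul, integral_exp_mul_Ioi (by
    rw [neg_lt_zero]; positivity) r]
  have e1 : -Real.exp (-(2 / T) * r) / -(2 / T) = T / 2 * Real.exp (-(2 / T) * r) := by
    field_simp
  rw [e1]
  have h2 : Real.exp (-(2 / T) * r) ≤ Real.exp (-(r / T)) := by
    apply Real.exp_le_exp.2
    have : 0 < r / T := by positivity
    have e : -(2 / T) * r = -(2 * (r / T)) := by ring
    rw [e]
    linarith
  calc B * ‖τ ^ s‖ * (T / 2 * Real.exp (-(2 / T) * r))
      ≤ B * ‖τ ^ s‖ * (T * Real.exp (-(r / T))) := by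
        refine mul_le_mul_of_nonneg_left ?_ (by positivity)
        exact mul_le_mul (by linarith) h2 (Real.exp_pos _).le hT0.le
    _ = B * T * ‖τ ^ s‖ * Real.exp (-(r / T)) := by ring

/-- the substitution -/
theorem integrand_eq (m : ℕ) (τ s : ℂ) (hτ0 : τ ≠ 0) (r u : ℝ) (hr : 0 < r) (hu : 0 < u) :
    phm m (τ * u * r) * (τ * u) ^ s / u = (r : ℂ) * (r : ℂ) ^ (-s) * hh m τ s (u * r) := by
  have hr0 : (r : ℂ) ≠ 0 := by exact_mod_cast hr.ne'
  have hu0 : (u : ℂ) ≠ 0 := by exact_mod_cast hu.ne'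
  unfold hh
  have e1 : τ * ((u * r : ℝ) : ℂ) = τ * u * r := by push_cast; ring
  rw [e1, Pool.Agent.H21.FM.cpow_real_mul (τ * u) s r (mul_ne_zero hτ0 hu0) hr, Complex.cpow_neg]
  have h1 : (r : ℂ) ^ s ≠ 0 := by
    rw [Complex.cpow_def_of_ne_zero hr0]
    exact Complex.exp_ne_zero _
  push_cast
  field_simp

theorem kf_eq (m : ℕ) (τ s : ℂ) (hτ0 : τ ≠ 0) (r : ℝ) (hr : 0 < r) :
    kfm m τ s r = (r : ℂ) ^ (-s) * ∫ w in Ioi r, hh m τ s w := by
  have hr0 : (r : ℂ) ≠ 0 := by exact_mod_cast hr.ne'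
  unfold kfm
  have h1 : ∫ u in Ioi (1 : ℝ), phm m (τ * u * r) * (τ * u) ^ s / u =
      ∫ u in Ioi (1 : ℝ), (r : ℂ) * (r : ℂ) ^ (-s) * hh m τ s (u * r) :=
    setIntegral_congr_fun measurableSet_Ioi fun u hu =>
      integrand_eq m τ s hτ0 r u hr (lt_trans one_pos hu)
  rw [h1, integral_const_mul, integral_comp_mul_right_Ioi (hh m τ s) 1 hr, one_mul]
  rw [Complex.real_smul]
  push_cast
  field_simp

/-- the bounds from the bound along the ray -/
theorem main (m : ℕ) (τ s : ℂ) (B T : ℝ) (hτr : 0 < τ.re) (hT : 1 ≤ T) (hB0 : 0 ≤ B)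
    (hB : Ray m τ B T) (hs : |s.re - 1 / 2| ≤ 1 / 8) (r : ℝ) (hr : 0 < r) :
    IntegrableOn (fun u : ℝ => phm m (τ * u * r) * (τ * u) ^ s / u) (Ioi 1) ∧
    ‖kfm m τ s r‖ ≤ B * T * ‖τ ^ s‖ * r ^ (-s.re) * Real.exp (-(r / T)) ∧
    HasDerivAt (kfm m τ s) (-(s * kfm m τ s r + phm m (τ * r) * τ ^ s) / r) r ∧
    ‖phm m (τ * r)‖ ≤ B * T * r ^ (-s.re) * Real.exp (-(r / T)) := by
  have hT0 : 0 < T := by linarith
  have hτ0 : τ ≠ 0 := by
    rintro rfl
    simp at hτr
  have hr0 : (r : ℂ) ≠ 0 := by exact_mod_cast hr.ne'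
  obtain ⟨hs1, hs2⟩ := abs_le.1 hs
  refine ⟨?_, ?_, ?_, ?_⟩
  · have h1 : IntegrableOn (fun u : ℝ => hh m τ s (u * r)) (Ioi 1) := by
      rw [integrableOn_Ioi_comp_mul_right_iff (hh m τ s) 1 hr, one_mul]
      exact hh_int m τ s B T hτr hT hB hs r hr
    have h2 : IntegrableOn (fun u : ℝ => (r : ℂ) * (r : ℂ) ^ (-s) * hh m τ s (u * r)) (Ioi 1) :=
      h1.const_mul _
    refine h2.congr_fun ?_ measurableSet_Ioi
    intro u hu
    exact (integrand_eq m τ s hτ0 r u hr (lt_trans one_pos hu)).symm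
  · rw [kf_eq m τ s hτ0 r hr, norm_mul, Complex.norm_cpow_eq_rpow_re_of_pos hr, Complex.neg_re]
    have h1 := hh_norm_int m τ s B T hτ0 hT hB0 hB hs r hr
    calc r ^ (-s.re) * ‖∫ w in Ioi r, hh m τ s w‖
        ≤ r ^ (-s.re) * (B * T * ‖τ ^ s‖ * Real.exp (-(r / T))) :=
          mul_le_mul_of_nonneg_left h1 (by positivity)
      _ = B * T * ‖τ ^ s‖ * r ^ (-s.re) * Real.exp (-(r / T)) := by ring
  · -- the derivative
    have hr2 : 0 < r / 2 := by positivity
    have hG : HasDerivAt (fun ρ : ℝ => ∫ w in Ioi ρ, hh m τ s w) (-(hh m τ s r)) r := by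
      have h1 : HasDerivAt (fun ρ : ℝ => ∫ w in (r / 2)..ρ, hh m τ s w) (hh m τ s r) r := by
        have hc : ContinuousOn (hh m τ s) (Ioi 0) := hh_cont m τ s hτr
        refine intervalIntegral.integral_hasDerivAt_right ?_ ?_ ?_
        · refine ContinuousOn.intervalIntegrable (hc.mono ?_)
          intro w hw
          rw [uIcc_of_le (by linarith)] at hw
          exact lt_of_lt_of_le hr2 hw.1
        · exact hc.stronglyMeasurableAtFilter isOpen_Ioi r hr
        · exact hc.continuousAt (Ioi_mem_nhds hr)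
      have h2 : HasDerivAt (fun ρ : ℝ => (∫ w in Ioi (r / 2), hh m τ s w) -
          ∫ w in (r / 2)..ρ, hh m τ s w) (0 - hh m τ s r) r := (hasDerivAt_const _ _).sub h1
      rw [zero_sub] at h2
      refine h2.congr_of_eventuallyEq ?_
      filter_upwards [Ioi_mem_nhds hr] with ρ hρ
      rw [← intervalIntegral.integral_interval_add_Ioi
        (hh_int m τ s B T hτr hT hB hs (r / 2) hr2) (hh_int m τ s B T hτr hT hB hs ρ hρ)]
      ring
    have hP : HasDerivAt (fun ρ : ℝ => (ρ : ℂ) ^ (-s)) (-s * (r : ℂ) ^ (-s - 1) * 1) r := by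
      have h1 : HasDerivAt (fun z : ℂ => z ^ (-s)) (-s * (r : ℂ) ^ (-s - 1) * 1) (r : ℂ) :=
        (hasDerivAt_id (r : ℂ)).cpow_const (Complex.ofReal_mem_slitPlane.2 hr)
      exact h1.comp_ofReal
    have hm := hP.mul hG
    have hk : HasDerivAt (kfm m τ s) (-s * (r : ℂ) ^ (-s - 1) * 1 * (∫ w in Ioi r, hh m τ s w) +
        (r : ℂ) ^ (-s) * -(hh m τ s r)) r := by
      refine hm.congr_of_eventuallyEq ?_
      filter_upwards [Ioi_mem_nhds hr] with ρ hρ
      exact kf_eq m τ s hτ0 ρ hρ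
    have e : -s * (r : ℂ) ^ (-s - 1) * 1 * (∫ w in Ioi r, hh m τ s w) +
        (r : ℂ) ^ (-s) * -(hh m τ s r) = -(s * kfm m τ s r + phm m (τ * r) * τ ^ s) / r := by
      rw [kf_eq m τ s hτ0 r hr, Complex.cpow_sub _ _ hr0, Complex.cpow_one]
      unfold hh
      rw [Pool.Agent.H21.FM.cpow_real_mul τ s r hτ0 hr, Complex.cpow_neg]
      have h1 : (r : ℂ) ^ s ≠ 0 := by
        rw [Complex.cpow_def_of_ne_zero hr0]
        exact Complex.exp_ne_zero _
      field_simp
      ring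
    rw [← e]
    exact hk
  · have h1 := hB r hr
    have h2 := rpow_le_one_add s.re r (by linarith) (by linarith) hr
    have h5 : r ^ (-s.re) * r ^ s.re = 1 := by
      rw [← Real.rpow_add hr]
      simp
    obtain ⟨E, hE⟩ : ∃ E, E = Real.exp (-(r / T)) := ⟨_, rfl⟩
    have hE0 : 0 < E := by rw [hE]; exact Real.exp_pos _
    have e3 : Real.exp (-(2 * r / T)) = E * E := by
      rw [hE, ← Real.exp_add]
      congr 1
      ring
    have h6 : (1 + r) * E ≤ T := by
      have h7 : r / T + 1 ≤ Real.exp (r / T) := Real.add_one_le_exp _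
      have h8 : Real.exp (r / T) * E = 1 := by
        rw [hE, ← Real.exp_add]
        simp
      have h9 : 1 + r ≤ T * (r / T + 1) := by
        have : T * (r / T + 1) = r + T := by field_simp
        rw [this]
        linarith
      calc (1 + r) * E ≤ T * (r / T + 1) * E := mul_le_mul_of_nonneg_right h9 hE0.le
        _ ≤ T * Real.exp (r / T) * E :=
            mul_le_mul_of_nonneg_right (mul_le_mul_of_nonneg_left h7 hT0.le) hE0.le
        _ = T := by rw [mul_assoc, h8, mul_one]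
    rw [e3] at h1
    rw [← hE]
    have h10 : ‖phm m (τ * r)‖ ≤ B * (E * E) := by
      have h11 : ‖phm m (τ * r)‖ * (1 + r) ≤ B * (E * E) * (1 + r) := by
        refine h1.trans ?_
        have h12 : 0 ≤ B * (E * E) := by positivity
        nlinarith
      exact le_of_mul_le_mul_right h11 (by linarith)
    have h13 : 1 ≤ r ^ (-s.re) * (1 + r) := by
      calc (1 : ℝ) = r ^ (-s.re) * r ^ s.re := h5.symm
        _ ≤ r ^ (-s.re) * (1 + r) := mul_le_mul_of_nonneg_left h2 (by positivity)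
    have hq : 0 < r ^ (-s.re) := by positivity
    calc ‖phm m (τ * r)‖ ≤ B * (E * E) := h10
      _ = B * (E * E) * 1 := by ring
      _ ≤ B * (E * E) * (r ^ (-s.re) * (1 + r)) :=
          mul_le_mul_of_nonneg_left h13 (by positivity)
      _ = B * r ^ (-s.re) * E * ((1 + r) * E) := by ring
      _ ≤ B * r ^ (-s.re) * E * T := mul_le_mul_of_nonneg_left h6 (by positivity)
      _ = B * T * r ^ (-s.re) * E := by ring

theorem cB_nonneg (m : ℕ) (t : ℝ) : 0 ≤ cB m t := by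
  unfold cB
  positivity

theorem tum_norm (m : ℕ) (t : ℝ) : ‖tum m t‖ = 1 := by
  unfold tum
  exact Complex.norm_exp_ofReal_mul_I _

theorem tum_re (m : ℕ) (t : ℝ) :
    (tum m t).re = ((m : ℝ) + 1) / Real.sqrt (((m : ℝ) + 1) ^ 2 + t ^ 2) := by
  unfold tum
  rw [Complex.exp_ofReal_mul_I_re, Real.cos_arctan]
  have hm : (0 : ℝ) < (m : ℝ) + 1 := by positivity
  have h1 : 1 + (t / ((m : ℝ) + 1)) ^ 2 = (((m : ℝ) + 1) ^ 2 + t ^ 2) / ((m : ℝ) + 1) ^ 2 := by
    field_simp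
  rw [h1, Real.sqrt_div' _ (by positivity), Real.sqrt_sq hm.le]
  have h2 : 0 < Real.sqrt (((m : ℝ) + 1) ^ 2 + t ^ 2) := Real.sqrt_pos.2 (by positivity)
  field_simp

theorem tum_inv_re (m : ℕ) (t : ℝ) : ((tum m t)⁻¹).re = (tum m t).re := by
  rw [Complex.inv_re, Complex.normSq_eq_norm_sq, tum_norm]
  simp

theorem pf_KR1c (hPHB : T_PHB) : T_KR1c := by
  obtain ⟨C, k, hC, h⟩ := hPHB
  refine ⟨C, k + 1, hC, ?_⟩
  intro m t τ s hτ hs r hr
  have hm : (0 : ℝ) < (m : ℝ) + 1 := by positivity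
  have hρ : 0 < Real.sqrt (((m : ℝ) + 1) ^ 2 + t ^ 2) := Real.sqrt_pos.2 (by positivity)
  have hre : τ.re = ((m : ℝ) + 1) / Real.sqrt (((m : ℝ) + 1) ^ 2 + t ^ 2) := by
    rcases hτ with rfl | rfl
    · exact tum_re m t
    · rw [tum_inv_re]
      exact tum_re m t
  have hn : ‖τ‖ = 1 := by
    rcases hτ with rfl | rfl
    · exact tum_norm m t
    · rw [norm_inv, tum_norm, inv_one]
  have hτr : 0 < τ.re := by
    rw [hre]
    positivity
  have hT : 1 ≤ 1 + |t| + (m : ℝ) := by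
    have := abs_nonneg t
    have : (0 : ℝ) ≤ m := Nat.cast_nonneg m
    linarith
  have hT0 : 0 < 1 + |t| + (m : ℝ) := by linarith
  have hcB := cB_nonneg m t
  have hB : Ray m τ (C * (1 + |t| + m) ^ k * cB m t) (1 + |t| + m) := by
    intro w hw
    refine h m t w (τ * w) hw ?_ ?_
    · rw [norm_mul, hn, one_mul, Complex.norm_real, Real.norm_of_nonneg hw.le]
      have : 0 ≤ 1 / (10 * (1 + |t| + (m : ℝ))) := by positivity
      nlinarith
    · rw [← hre]
      have e : (τ * (w : ℂ)).re = w * τ.re := by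
        simp [mul_comm]
      rw [e]
      have h1 : 0 ≤ 1 / (10 * ((m : ℝ) + 1)) := by positivity
      have h2 : 0 ≤ w * τ.re := by positivity
      nlinarith
  have h0 := main m τ s (C * (1 + |t| + m) ^ k * cB m t) (1 + |t| + m) hτr hT (by positivity) hB
    hs r hr
  have e : C * (1 + |t| + (m : ℝ)) ^ (k + 1) * cB m t =
      C * (1 + |t| + (m : ℝ)) ^ k * cB m t * (1 + |t| + m) := by ring
  rw [e]
  exact h0

end Pool.Agent.H11.FC
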